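import Pool.Agent.H52.XH.Targets

/-!
Board xh_modules (MP_e37c09_lc), row CD: definability of the collapse
-/

open Ordinal Cardinal Order Set
open scoped ZFSet

universe u

namespace Pool.Agent.H34.XH

open _root_.HD Pool.Agent.H54.WM Pool.Agent.H52.XH

/-- the recursive description of `y = cps X x` -/
def CpD (X x y : ZFSet.{u}) : Prop := ∃ t : ZFSet.{u}, ∃ g : ZFSet.{u}, x ∈ t ∧ (∀ a ∈ t, ∀ b ∈ a, b ∈ t) ∧
  (∀ a ∈ t, ∃ b, ZFSet.pair a b ∈ g) ∧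
  (∀ a ∈ t, ∀ b, ZFSet.pair a b ∈ g → ∀ c, (c ∈ b ↔ ∃ d ∈ a, d ∈ X ∧ ZFSet.pair d c ∈ g)) ∧
  ZFSet.pair x y ∈ g

theorem dz_CpD : DZ.{u} fun v => CpD (v 0) (v 1) (v 2) := by
  refine DZ.ex (R := fun t v => ∃ g : ZFSet.{u}, v 1 ∈ t ∧ (∀ a ∈ t, ∀ b ∈ a, b ∈ t) ∧
    (∀ a ∈ t, ∃ b, ZFSet.pair a b ∈ g) ∧
    (∀ a ∈ t, ∀ b, ZFSet.pair a b ∈ g → ∀ c, (c ∈ b ↔ ∃ d ∈ a, d ∈ v 0 ∧ ZFSet.pair d c ∈ g)) ∧
    ZFSet.pair (v 1) (v 2) ∈ g) ?_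
  -- `0 = t, 1 = X, 2 = x, 3 = y`
  refine DZ.ex (R := fun g v => v 2 ∈ v 0 ∧ (∀ a ∈ v 0, ∀ b ∈ a, b ∈ v 0) ∧
    (∀ a ∈ v 0, ∃ b, ZFSet.pair a b ∈ g) ∧
    (∀ a ∈ v 0, ∀ b, ZFSet.pair a b ∈ g → ∀ c, (c ∈ b ↔ ∃ d ∈ a, d ∈ v 1 ∧
      ZFSet.pair d c ∈ g)) ∧ ZFSet.pair (v 2) (v 3) ∈ g) ?_
  -- `0 = g, 1 = t, 2 = X, 3 = x, 4 = y`
  refine (DZ.mem 3 1).and (DZ.and ?_ (DZ.and ?_ (DZ.and ?_ (loc_pmem 3 4 0).dz)))
  · refine DZ.allMem (R := fun a v => ∀ b ∈ a, b ∈ v 1) 1 ?_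
    exact DZ.allMem (R := fun b v => b ∈ v 2) 0 (DZ.mem 0 3)
  · refine DZ.allMem (R := fun a v => ∃ b, ZFSet.pair a b ∈ v 0) 1 ?_
    exact DZ.ex (R := fun b v => ZFSet.pair (v 0) b ∈ v 1) (loc_pmem 1 0 2).dz
  · refine DZ.allMem (R := fun a v => ∀ b, ZFSet.pair a b ∈ v 0 → ∀ c,
      (c ∈ b ↔ ∃ d ∈ a, d ∈ v 2 ∧ ZFSet.pair d c ∈ v 0)) 1 ?_
    -- `0 = a, 1 = g, 2 = t, 3 = X`
    refine DZ.all (R := fun b v => ZFSet.pair (v 0) b ∈ v 1 → ∀ c,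
      (c ∈ b ↔ ∃ d ∈ v 0, d ∈ v 3 ∧ ZFSet.pair d c ∈ v 1)) ?_
    -- `0 = b, 1 = a, 2 = g, 3 = t, 4 = X`
    refine (loc_pmem 1 0 2).dz.imp ?_
    refine DZ.all (R := fun c v => (c ∈ v 0 ↔ ∃ d ∈ v 1, d ∈ v 4 ∧ ZFSet.pair d c ∈ v 2)) ?_
    -- `0 = c, 1 = b, 2 = a, 3 = g, 4 = t, 5 = X`
    refine (DZ.mem 0 1).iff ?_
    refine DZ.exMem (R := fun d v => d ∈ v 5 ∧ ZFSet.pair d (v 0) ∈ v 3) 2 ?_
    exact (DZ.mem 0 6).and (loc_pmem 0 1 4).dz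

theorem CpD_iff (X x y : ZFSet.{u}) : CpD X x y ↔ y = cps X x := by
  constructor
  · rintro ⟨t, g, hx, ht, htot, hrec, hxy⟩
    have key : ∀ a : ZFSet.{u}, a ∈ t → ∀ b, ZFSet.pair a b ∈ g → b = cps X a := by
      intro a
      induction a using ZFSet.inductionOn with
      | _ a ih =>
        intro ha b hb
        ext c
        rw [hrec a ha b hb c, mem_cps]
        constructor
        · rintro ⟨d, hd, hdX, hdc⟩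
          exact ⟨d, hd, hdX, (ih d hd (ht a ha d hd) c hdc).symm⟩
        · rintro ⟨d, hd, hdX, rfl⟩
          obtain ⟨b', hb'⟩ := htot d (ht a ha d hd)
          have h1 := ih d hd (ht a ha d hd) b' hb'
          rw [h1] at hb'
          exact ⟨d, hd, hdX, hb'⟩
    exact key x hx y hxy
  · rintro rfl
    set t : ZFSet.{u} := V_ (Order.succ x.rank) with ht
    set g : ZFSet.{u} := ZFSet.range fun a : t => ZFSet.pair a.1 (cps X a.1) with hg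
    have hmg : ∀ a b, ZFSet.pair a b ∈ g ↔ a ∈ t ∧ b = cps X a := by
      intro a b
      rw [hg, ZFSet.mem_range]
      constructor
      · rintro ⟨⟨w, hw⟩, h⟩
        obtain ⟨rfl, rfl⟩ := ZFSet.pair_inj.1 h
        exact ⟨hw, rfl⟩
      · rintro ⟨ha, rfl⟩
        exact ⟨⟨a, ha⟩, rfl⟩
    have htr : ∀ a ∈ t, ∀ b ∈ a, b ∈ t := by
      intro a ha b hb
      rw [ht, ZFSet.mem_vonNeumann] at ha ⊢
      exact (ZFSet.rank_lt_of_mem hb).trans ha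
    have hxt : x ∈ t := by
      rw [ht, ZFSet.mem_vonNeumann]
      exact Order.lt_succ _
    refine ⟨t, g, hxt, htr, fun a ha => ⟨cps X a, (hmg _ _).2 ⟨ha, rfl⟩⟩, ?_,
      (hmg _ _).2 ⟨hxt, rfl⟩⟩
    intro a ha b hb c
    obtain ⟨-, rfl⟩ := (hmg _ _).1 hb
    rw [mem_cps]
    constructor
    · rintro ⟨d, hd, hdX, rfl⟩
      exact ⟨d, hd, hdX, (hmg _ _).2 ⟨htr a ha d hd, rfl⟩⟩
    · rintro ⟨d, hd, hdX, hdc⟩
      exact ⟨d, hd, hdX, ((hmg _ _).1 hdc).2.symm⟩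

theorem pf_CD : Pool.Agent.H52.XH.T_CD.{u} := by
  intro X hX
  have hdz : DZ fun v => v 1 = cps X (v 0) := by
    refine (DZ.od (R := fun X v => CpD X (v 0) (v 1)) hX.od dz_CpD).congr fun v => ?_
    exact (CpD_iff X (v 0) (v 1)).symm
  refine ⟨?_, hdz⟩
  intro x
  induction x using ZFSet.inductionOn with
  | _ x ih =>
    intro hx
    refine hod_iff.2 ⟨OD.of_dz (DZ.od (R := fun a v => v 0 = cps X a) hx.od hdz), ?_⟩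
    intro z hz
    obtain ⟨y, hy, -, rfl⟩ := mem_cps.1 hz
    exact ih y hy ((hod_iff.1 hx).2 y hy)

end Pool.Agent.H34.XH
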