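import Pool.Agent.H52.XH.Targets

/-!
Board xh_modules (MP_e37c09_lc), row REG: definable regressive relations
-/

open Ordinal Cardinal Order Set
open scoped ZFSet

universe u

namespace Pool.Agent.H34.XH

open _root_.HD Pool.Agent.H54.WM Pool.Agent.H52.XH

/-- `c` is the least element of `s` with `Q s c`, or `c = l` if there is none -/
def Glst (Q : ZFSet.{u} → ZFSet.{u} → Prop) (l s c : ZFSet.{u}) : Prop :=
  (c ∈ s ∧ Q s c ∧ ∀ d ∈ c, d ∈ s → ¬ Q s d) ∨ (c = l ∧ ∀ d ∈ s, ¬ Q s d)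

theorem dz_Glst {Q : ZFSet.{u} → ZFSet.{u} → Prop} (hQ : DZ fun v => Q (v 0) (v 1)) :
    DZ fun v => Glst Q (v 0) (v 1) (v 2) := by
  refine DZ.or ?_ ?_
  · refine (DZ.mem 2 1).and (DZ.and ?_ ?_)
    · exact hQ.ren fun n => n + 1
    · refine DZ.allMem (R := fun d v => d ∈ v 1 → ¬ Q (v 1) d) 2 ?_
      refine (DZ.mem 0 2).imp (DZ.not ?_)
      exact (hQ.ren fun n => if n = 0 then 2 else 0)
  · refine (DZ.eq 2 0).and ?_
    refine DZ.allMem (R := fun d v => ¬ Q (v 1) d) 1 (DZ.not ?_)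
    exact (hQ.ren fun n => if n = 0 then 2 else 0)

theorem pf_REG : T_REG.{u} := by
  intro κ lam U hU R hR h
  set Q : ZFSet.{u} → ZFSet.{u} → Prop := fun s c => c.IsOrdinal ∧ R s c.rank with hQ
  have hQd : DZ fun v => Q (v 0) (v 1) := hR
  have hQo : ∀ (s : ZFSet.{u}) (a : Ordinal.{u}), Q s a.toZFSet ↔ R s a := by
    intro s a
    simp only [hQ, rank_toZFSet]
    exact ⟨fun h => h.2, fun h => ⟨ZFSet.isOrdinal_toZFSet a, h⟩⟩
  set G : ZFSet.{u} → ZFSet.{u} → Prop := Glst Q lam.toZFSet with hG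
  have hGd : DZ fun v => G (v 0) (v 1) :=
    DZ.od (R := fun l v => Glst Q l (v 0) (v 1)) (OD.ordinal lam) (dz_Glst hQd)
  -- subsets of `lam`
  have hsub : ∀ s ∈ PkHOD κ lam, ∀ c ∈ s, ∃ a < lam, a.toZFSet = c := by
    intro s hs c hc
    have h1 : s ⊆ lam.toZFSet := (Pool.Agent.H4.HD.FU.mem_pk.1 hs).1
    obtain ⟨a, ha, h2⟩ := mem_toZFSet_iff.1 (h1 hc)
    exact ⟨a, ha, h2⟩
  -- `G` is the graph of a function
  have hGex : ∀ s ∈ PkHOD κ lam, ∀ a : Ordinal.{u}, a.toZFSet ∈ s → R s a →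
      ∃ b < lam, b.toZFSet ∈ s ∧ R s b ∧ G s b.toZFSet := by
    intro s hs a ha hRa
    have hne : {b : Ordinal.{u} | b.toZFSet ∈ s ∧ R s b}.Nonempty := ⟨a, ha, hRa⟩
    obtain ⟨h1, h2⟩ := csInf_mem hne
    set b := sInf {b : Ordinal.{u} | b.toZFSet ∈ s ∧ R s b} with hb
    obtain ⟨c, hc, hcb⟩ := hsub s hs _ h1
    have hcb' : c = b := toZFSet_injective hcb
    refine ⟨b, hcb' ▸ hc, h1, h2, Or.inl ⟨h1, (hQo s b).2 h2, fun d hd hds hQd => ?_⟩⟩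
    obtain ⟨d, hdb, rfl⟩ := mem_toZFSet_iff.1 hd
    exact notMem_of_lt_csInf' (s := {b : Ordinal.{u} | b.toZFSet ∈ s ∧ R s b}) hdb
      ⟨hds, (hQo s d).1 hQd⟩
  have hGnone : ∀ s ∈ PkHOD κ lam, (¬ ∃ a : Ordinal.{u}, a.toZFSet ∈ s ∧ R s a) →
      G s lam.toZFSet := by
    intro s hs hn
    refine Or.inr ⟨rfl, fun d hd hQd => ?_⟩
    obtain ⟨a, ha, rfl⟩ := hsub s hs d hd
    exact hn ⟨a, hd, (hQo s a).1 hQd⟩
  have hGuniq : ∀ s ∈ PkHOD κ lam, ∀ c c' : ZFSet.{u}, G s c → G s c' → c = c' := by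
    intro s hs c c' h1 h2
    rcases h1 with ⟨h1, h1q, h1m⟩ | ⟨h1, h1n⟩
    · rcases h2 with ⟨h2, h2q, h2m⟩ | ⟨h2, h2n⟩
      · obtain ⟨a, ha, rfl⟩ := hsub s hs c h1
        obtain ⟨b, hb, rfl⟩ := hsub s hs c' h2
        rcases lt_trichotomy a b with hab | hab | hab
        · exact absurd h1q (h2m _ (toZFSet_mem_toZFSet_iff.2 hab) h1)
        · rw [hab]
        · exact absurd h2q (h1m _ (toZFSet_mem_toZFSet_iff.2 hab) h2)
      · exact absurd h1q (h2n _ h1)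
    · rcases h2 with ⟨h2, h2q, h2m⟩ | ⟨h2, h2n⟩
      · exact absurd h2q (h1n _ h2)
      · rw [h1, h2]
  -- the function
  set Y : ZFSet.{u} := (Order.succ lam).toZFSet with hY
  set f : ZFSet.{u} := ZFSet.sep (fun p => ∃ s c, p = ZFSet.pair s c ∧ G s c)
    (ZFSet.prod (PkHOD κ lam) Y) with hf
  have hmf : ∀ s c, ZFSet.pair s c ∈ f ↔ (s ∈ PkHOD κ lam ∧ c ∈ Y) ∧ G s c := by
    intro s c
    rw [hf, ZFSet.mem_sep, ZFSet.pair_mem_prod]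
    refine and_congr_right fun _ => ⟨?_, fun h => ⟨s, c, rfl, h⟩⟩
    rintro ⟨s', c', he, hg⟩
    obtain ⟨rfl, rfl⟩ := ZFSet.pair_inj.1 he
    exact hg
  have hfOD : OD f := by
    refine OD.of_mem (P := fun v => ∃ s, s ∈ PkHOD κ lam ∧ ∃ c, c ∈ Y ∧
      (v 0 = ZFSet.pair s c ∧ G s c)) ?_ fun v => ?_
    · refine DZ.ex (R := fun s v => s ∈ PkHOD κ lam ∧ ∃ c, c ∈ Y ∧
        (v 0 = ZFSet.pair s c ∧ G s c)) ((Pool.Agent.H4.HD.FU.dz_pk κ lam 0).and ?_)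
      refine DZ.ex (R := fun c v => c ∈ Y ∧ (v 1 = ZFSet.pair (v 0) c ∧ G (v 0) c)) ?_
      refine DZ.and ?_ (DZ.and ?_ ?_)
      · exact DZ.od (R := fun y v => v 0 ∈ y) (OD.ordinal _) (DZ.mem 1 0)
      · exact (loc_pair 2 1 0).dz
      · exact (hGd.ren fun n => if n = 0 then 1 else 0)
    · constructor
      · rintro ⟨s, hs, c, hc, he, hg⟩
        rw [he, hmf]
        exact ⟨⟨hs, hc⟩, hg⟩
      · intro hv
        have h1 := (ZFSet.mem_sep.1 hv)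
        obtain ⟨s, c, he, hg⟩ := h1.2
        rw [he, ZFSet.pair_mem_prod] at h1
        exact ⟨s, h1.1.1, c, h1.1.2, he, hg⟩
  have hfH : HOD f := by
    refine hod_iff.2 ⟨hfOD, fun p hp => ?_⟩
    have h1 := (ZFSet.mem_sep.1 hp)
    obtain ⟨s, c, he, hg⟩ := h1.2
    rw [he, ZFSet.pair_mem_prod] at h1
    rw [he]
    obtain ⟨a, ha, rfl⟩ := mem_toZFSet_iff.1 h1.1.2
    exact (Pool.Agent.H4.HD.FU.hod_of_mem h1.1.1).pair (HOD.ordinal a)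
  have hlamY : lam.toZFSet ∈ Y := toZFSet_mem_toZFSet_iff.2 (Order.lt_succ lam)
  have hltY : ∀ a < lam, a.toZFSet ∈ Y := fun a ha =>
    toZFSet_mem_toZFSet_iff.2 (ha.trans (Order.lt_succ lam))
  have hfn : ZFSet.IsFunc (PkHOD κ lam) Y f := by
    refine ⟨fun p hp => (ZFSet.mem_sep.1 hp).1, fun s hs => ?_⟩
    by_cases hc : ∃ a : Ordinal.{u}, a.toZFSet ∈ s ∧ R s a
    · obtain ⟨a, ha, hRa⟩ := hc
      obtain ⟨b, hb, -, -, hg⟩ := hGex s hs a ha hRa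
      refine ⟨b.toZFSet, (hmf _ _).2 ⟨⟨hs, hltY b hb⟩, hg⟩, fun c' hc' => ?_⟩
      exact hGuniq s hs _ _ ((hmf _ _).1 hc').2 hg
    · refine ⟨lam.toZFSet, (hmf _ _).2 ⟨⟨hs, hlamY⟩, hGnone s hs hc⟩, fun c' hc' => ?_⟩
      exact hGuniq s hs _ _ ((hmf _ _).1 hc').2 (hGnone s hs hc)
  have heq : ZFSet.sep (fun s => ∃ a ∈ s, ZFSet.pair s a ∈ f) (PkHOD κ lam) =
      ZFSet.sep (fun s => ∃ a : Ordinal.{u}, a.toZFSet ∈ s ∧ R s a) (PkHOD κ lam) := by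
    ext s
    rw [ZFSet.mem_sep, ZFSet.mem_sep]
    refine and_congr_right fun hs => ?_
    constructor
    · rintro ⟨c, hc, hp⟩
      obtain ⟨a, ha, rfl⟩ := hsub s hs c hc
      rcases ((hmf _ _).1 hp).2 with ⟨h1, h1q, -⟩ | ⟨h1, -⟩
      · exact ⟨a, hc, (hQo s a).1 h1q⟩
      · exact absurd (toZFSet_injective h1) ha.ne
    · rintro ⟨a, ha, hRa⟩
      obtain ⟨b, hb, hbs, -, hg⟩ := hGex s hs a ha hRa
      exact ⟨b.toZFSet, hbs, (hmf _ _).2 ⟨⟨hs, hltY b hb⟩, hg⟩⟩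
  rw [← heq] at h
  obtain ⟨a, ha, haU⟩ := hU.normal f Y hfH hfn h
  refine ⟨a, ha, ?_⟩
  have hsubP : ZFSet.sep (fun s => R s a) (PkHOD κ lam) ⊆ PkHOD κ lam :=
    fun s hs => (ZFSet.mem_sep.1 hs).1
  refine hU.fine.up _ haU _ ?_ ?_ hsubP
  · refine Pool.Agent.H4.HD.FU.hod_sub ?_ hsubP
    refine OD.of_mem (P := fun v => v 0 ∈ PkHOD κ lam ∧ Q (v 0) a.toZFSet) ?_ fun v => ?_
    · refine (Pool.Agent.H4.HD.FU.dz_pk κ lam 0).and ?_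
      refine DZ.od (R := fun c v => Q (v 0) c) (OD.ordinal a) ?_
      exact (hQd.ren fun n => if n = 0 then 1 else 0)
    · rw [ZFSet.mem_sep, hQo]
  · intro s hs
    obtain ⟨h1, h2⟩ := ZFSet.mem_sep.1 hs
    refine ZFSet.mem_sep.2 ⟨h1, ?_⟩
    rcases ((hmf _ _).1 h2).2 with ⟨-, h1q, -⟩ | ⟨h3, -⟩
    · exact (hQo s a).1 h1q
    · exact absurd (toZFSet_injective h3) ha.ne

end Pool.Agent.H34.XH
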